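import Mathlib
import Pool.Agent.Y224.OD.Stm

/-!
# The slopes of an ordinary Weil polynomial
-/

namespace Pool.Agent.Y275.OD

open Module Polynomial

theorem t_slope : Pool.Agent.Y224.OD.S_SLOPE := by
  intro K _ _ g a f p q σ O hp hpq hq hcoef hf ha hpO
  have hinj : Function.Injective (Int.castRingHom K) := Int.cast_injective
  have hmonic : f.Monic := by
    apply Polynomial.monic_of_injective hinj
    rw [hf]
    exact monic_prod_of_monic _ _ fun i _ => monic_X_sub_C (a i)
  have haO : ∀ i, a i ∈ O := by
    intro i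
    have h1 : IsIntegral ℤ (a i) := by
      refine ⟨f, hmonic, ?_⟩
      have h2 : eval (a i) (f.map (Int.castRingHom K)) = 0 := by
        rw [hf, eval_prod]
        exact Finset.prod_eq_zero (Finset.mem_univ i) (by simp)
      rw [eval_map] at h2
      exact h2
    have h3 : IsIntegral O (a i) := h1.tower_top
    obtain ⟨y, hy⟩ := (IsIntegrallyClosed.isIntegral_iff (R := O) (K := K)).mp h3
    rw [← hy]
    exact y.2
  have hqK : (q : K) ≠ 0 := Nat.cast_ne_zero.mpr hq
  have hne : ∀ i, a i ≠ 0 := by
    intro i h0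
    have := ha i
    rw [h0, zero_mul] at this
    exact hqK this.symm
  let b : Fin (2 * g) → O := fun i => ⟨a i, haO i⟩
  have hunit : ∀ x : O, (x : K) ≠ 0 → (IsUnit x ↔ (x : K)⁻¹ ∈ O) := by
    intro x hx
    constructor
    · rintro ⟨u, rfl⟩
      have h1 : ((u : O) : K) * ((u⁻¹ : Oˣ) : O) = 1 := by
        rw [← MulMemClass.coe_mul, Units.mul_inv]
        rfl
      rw [← eq_inv_of_mul_eq_one_right h1]
      exact ((u⁻¹ : Oˣ) : O).2
    · intro h
      refine IsUnit.of_mul_eq_one (⟨(x : K)⁻¹, h⟩ : O) ?_
      apply Subtype.ext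
      change (x : K) * (x : K)⁻¹ = 1
      exact mul_inv_cancel₀ hx
  have hpK : (p : K) ≠ 0 := Nat.cast_ne_zero.mpr hp.ne_zero
  have hpnu : ¬ IsUnit (p : O) := by
    rw [hunit (p : O) (by simpa using hpK)]
    simpa using hpO
  let κ := IsLocalRing.ResidueField O
  let r : O →+* κ := IsLocalRing.residue O
  have hr0 : ∀ x : O, r x = 0 ↔ ¬ IsUnit x := by
    intro x
    rw [show r x = 0 ↔ x ∈ IsLocalRing.maximalIdeal O from IsLocalRing.residue_eq_zero_iff x]
    exact IsLocalRing.mem_maximalIdeal x
  have hpk : (p : κ) = 0 := by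
    have := (hr0 (p : O)).mpr hpnu
    rwa [map_natCast] at this
  have hck : ((f.coeff g : ℤ) : κ) ≠ 0 := by
    intro h0
    have hcop : IsCoprime (p : ℤ) (f.coeff g) :=
      (Nat.prime_iff_prime_int.mp hp).coprime_iff_not_dvd.mpr hcoef
    obtain ⟨u, v, huv⟩ := hcop
    have h1 := congrArg (Int.castRingHom κ) huv
    rw [map_add, map_mul, map_mul, map_one] at h1
    have h2 : Int.castRingHom κ (f.coeff g) = 0 := h0
    have h3 : Int.castRingHom κ (p : ℤ) = 0 := by
      rw [map_natCast]
      exact hpk
    rw [h2, h3, mul_zero, mul_zero, add_zero] at h1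
    exact zero_ne_one h1
  have hfO : f.map (Int.castRingHom O) = ∏ i, (X - C (b i)) := by
    apply Polynomial.map_injective (algebraMap O K) (IsFractionRing.injective O K)
    rw [Polynomial.map_map, Polynomial.map_prod]
    rw [show (algebraMap O K).comp (Int.castRingHom O) = Int.castRingHom K from
      RingHom.ext_int _ _, hf]
    refine Finset.prod_congr rfl fun i _ => ?_
    rw [Polynomial.map_sub, Polynomial.map_X, Polynomial.map_C]
    rfl
  have hfk : f.map (Int.castRingHom κ) = ∏ i, (X - C (r (b i))) := by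
    have h1 := congrArg (Polynomial.map r) hfO
    rw [Polynomial.map_map, Polynomial.map_prod,
      show r.comp (Int.castRingHom O) = Int.castRingHom κ from RingHom.ext_int _ _] at h1
    rw [h1]
    refine Finset.prod_congr rfl fun i _ => ?_
    rw [Polynomial.map_sub, Polynomial.map_X, Polynomial.map_C]
  classical
  let S : Finset (Fin (2 * g)) := Finset.univ.filter fun i => IsUnit (b i)
  have hSc : (Sᶜ).card ≤ g := by
    by_contra hlt
    rw [not_le] at hlt
    have hdvd : (X : κ[X]) ^ (Sᶜ).card ∣ f.map (Int.castRingHom κ) := by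
      rw [hfk, ← Finset.prod_compl_mul_prod S]
      apply Dvd.dvd.mul_right
      have : ∏ i ∈ Sᶜ, (X - C (r (b i))) = (X : κ[X]) ^ (Sᶜ).card := by
        rw [← Finset.prod_const]
        refine Finset.prod_congr rfl fun i hi => ?_
        have h2 : ¬ IsUnit (b i) := by
          simpa [S] using hi
        rw [(hr0 (b i)).mpr h2, C_0, sub_zero]
      rw [this]
    rw [X_pow_dvd_iff] at hdvd
    have := hdvd g hlt
    rw [coeff_map] at this
    exact hck this
  have hScard : g ≤ S.card := by
    have h1 := Finset.card_add_card_compl S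
    rw [Fintype.card_fin] at h1
    omega
  let T : Finset (Fin (2 * g)) := S.map σ.symm.toEmbedding
  have hTcard : T.card = S.card := Finset.card_map _
  have hT : ∀ i, i ∈ T → IsUnit (b (σ i)) := by
    intro i hi
    rw [Finset.mem_map] at hi
    obtain ⟨j, hj, rfl⟩ := hi
    have : IsUnit (b j) := by simpa [S] using hj
    simpa using this
  have hdisj : Disjoint S T := by
    rw [Finset.disjoint_left]
    intro i hi hi'
    have h1 : IsUnit (b i) := by simpa [S] using hi
    have h2 := hT i hi'
    have h3 : b i * b (σ i) = (q : O) := by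
      apply Subtype.ext
      change a i * a (σ i) = ((q : O) : K)
      rw [ha i]
      simp
    have h4 : IsUnit (q : O) := by
      rw [← h3]
      exact h1.mul h2
    obtain ⟨c, hc⟩ := hpq
    rw [hc, Nat.cast_mul] at h4
    exact hpnu (isUnit_of_mul_isUnit_left h4)
  have hall : S ∪ T = Finset.univ := by
    apply Finset.eq_univ_of_card
    rw [Finset.card_union_of_disjoint hdisj, hTcard, Fintype.card_fin]
    apply le_antisymm
    · have h1 := Finset.card_le_univ (S ∪ T)
      rw [Finset.card_union_of_disjoint hdisj, hTcard, Fintype.card_fin] at h1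
      exact h1
    · omega
  intro i
  have hi : i ∈ S ∪ T := by rw [hall]; exact Finset.mem_univ i
  rw [Finset.mem_union] at hi
  rcases hi with hi | hi
  · left
    have h1 : IsUnit (b i) := by simpa [S] using hi
    exact ⟨haO i, (hunit (b i) (hne i)).mp h1⟩
  · right
    have h1 := hT i hi
    have h2 := (hunit (b (σ i)) (hne (σ i))).mp h1
    have h3 : (q : K) / a i = a (σ i) := by
      rw [← ha i]
      exact mul_div_cancel_left₀ _ (hne i)
    refine ⟨?_, ?_⟩
    · have h4 : a i / (q : K) = (a (σ i))⁻¹ := by
        rw [← h3, inv_div]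
      rw [h4]
      exact h2
    · rw [h3]
      exact haO (σ i)

end Pool.Agent.Y275.OD
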